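import Mathlib
import Pool.Agent.Run7.h18.MK.Arb4

set_option autoImplicit false

/-!
# `n = p + f(m)` with `m` small and in an arbitrary set, for almost every `n`

Uses project MK of this run (the one-shift law for short shifts, `S_LAW'`, applied to the differences `f(m) - f(m')`)
and the polynomial Weyl sums `H373R2.NB.IW_all` of the starting files.
-/

open Polynomial Finset

namespace Pool.Agent.Results.MP_d48457_nt.ArbitrarySetsOfArguments

open Classical in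
/-- The sum of `log (n - f(m))` over the elements `m ≤ x` of `M` for which `n - f(m)` is a prime. -/
noncomputable def primeSum (f : ℤ[X]) (M : Set ℕ) (n : ℤ) (x : ℕ) : ℝ :=
  ∑ m ∈ (Icc 1 x).filter (fun m : ℕ => m ∈ M ∧ (n - f.eval (m : ℤ)).toNat.Prime), Real.log ((n - f.eval (m : ℤ) : ℤ) : ℝ)

open Classical in
/-- The number of the elements `m ≤ x` of `M` for which `n - f(m)` has no prime factor `p ≤ z`, divided by the product
of `1 - 1 / p` over the primes `p ≤ z`. -/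
noncomputable def expected (f : ℤ[X]) (M : Set ℕ) (n : ℤ) (z x : ℕ) : ℝ :=
  (((Icc 1 x).filter (fun m : ℕ => m ∈ M ∧ ∀ p : ℕ, p.Prime → p ≤ z → ¬ (p : ℤ) ∣ n - f.eval (m : ℤ))).card : ℝ) /
    ∏ p ∈ (Icc 1 z).filter Nat.Prime, (1 - 1 / (p : ℝ))

/-- Let `d ≥ 1`, `T` and `U` be integers. There are `C` and `B` such that for every `E` and all large `N`, with
`L = log N`, for every `z` between `L ^ B` and `L ^ E` and EVERY set `M` of positive integers, all but at most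
`N / L ^ U` of the integers `n` in `[1, N]` have the following property: for ALL integer polynomials `f` with
`1 ≤ deg f ≤ d` and coefficients at most `L ^ T` in absolute value and ALL integers `x` with
`N ^ (1/3) L ^ C ≤ x ^ (deg f) ≤ N / L ^ C`, the numbers `n - f(m)`, `m ≤ x`, are positive, and the primes among the
numbers `n - f(m)`, `m ∈ M`, `m ≤ x`, counted with their logarithms, number
`expected + O(x / L ^ U)`. The case of squares: `f = X ^ 2`, `N ^ (1/6) L ^ C ≤ x ≤ N ^ (1/2) / L ^ C`. -/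
theorem result (d T U : ℕ) (hd : 1 ≤ d) : ∃ C B : ℕ, ∀ E : ℕ, ∃ N₀ : ℕ, ∀ N : ℕ, N₀ ≤ N → ∀ z : ℕ,
    Real.log N ^ B ≤ z → (z : ℝ) ≤ Real.log N ^ E → ∀ M : Set ℕ,
    ∃ Ex : Finset ℕ, (Ex.card : ℝ) ≤ N / Real.log N ^ U ∧ ∀ n ∈ Icc 1 N, n ∉ Ex →
      ∀ f : ℤ[X], 1 ≤ f.natDegree → f.natDegree ≤ d → (∀ i, |((f.coeff i : ℤ) : ℝ)| ≤ Real.log N ^ T) →
      ∀ x : ℕ, (N : ℝ) ^ (1 / 3 : ℝ) * Real.log N ^ C ≤ (x : ℝ) ^ f.natDegree →
        (x : ℝ) ^ f.natDegree * Real.log N ^ C ≤ N →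
        (∀ m ∈ Icc 1 x, 1 ≤ (n : ℤ) - f.eval (m : ℤ)) ∧
        |primeSum f M n x - expected f M n z x| ≤ x / Real.log N ^ U := by
  classical
  obtain ⟨C, B, h⟩ := Pool.Agent.Run7.h18.MK.arb_fin d T U hd
  refine ⟨C, B, fun E => ?_⟩
  obtain ⟨N₁, h⟩ := h E
  refine ⟨N₁, fun N hN z hz1 hz2 M => ?_⟩
  obtain ⟨w, hw⟩ : ∃ w : ℕ → ℝ, w = fun m => if m ∈ M then 1 else 0 := ⟨_, rfl⟩
  obtain ⟨Ex, hE1, hE2⟩ := h N hN z hz1 hz2 w (by
    intro m
    rw [hw]
    simp only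
    split_ifs
    · rw [abs_one]
    · rw [abs_zero]
      exact zero_le_one)
  refine ⟨Ex, hE1, fun n hn hnE f hf1 hf2 hcf x hx1 hx2 => ?_⟩
  have hneg : ∀ m : ℤ, (-f).eval m = -f.eval m := fun m => eval_neg _ _
  obtain ⟨a3, a4⟩ := hE2 n hn hnE (-f) (by rw [natDegree_neg]; exact hf1) (by rw [natDegree_neg]; exact hf2)
    (fun i => by
      rw [coeff_neg, Int.cast_neg, abs_neg]
      exact hcf i) x (by rw [natDegree_neg]; exact hx1) (by rw [natDegree_neg]; exact hx2)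
  have a3' : ∀ m ∈ Icc 1 x, 1 ≤ (n : ℤ) - f.eval (m : ℤ) := by
    intro m hm
    have := a3 m hm
    rw [hneg] at this
    linarith
  refine ⟨a3', ?_⟩
  have e1 : primeSum f M n x = ∑ m ∈ Icc 1 x, w m * Pool.Agent.R460.SQ.thp ((n : ℤ) + (-f).eval (m : ℤ)).toNat := by
    unfold primeSum Pool.Agent.R460.SQ.thp
    rw [sum_filter]
    refine sum_congr rfl fun m hm => ?_
    have h5 := a3' m hm
    rw [hneg, ← sub_eq_add_neg, hw]
    simp only
    have h6 : ((((n : ℤ) - f.eval (m : ℤ)).toNat : ℕ) : ℝ) = (((n : ℤ) - f.eval (m : ℤ) : ℤ) : ℝ) := by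
      rw [← Int.cast_natCast, Int.toNat_of_nonneg (by omega)]
    rw [h6]
    by_cases h7 : m ∈ M
    · by_cases h8 : ((n : ℤ) - f.eval (m : ℤ)).toNat.Prime
      · rw [if_pos ⟨h7, h8⟩, if_pos h7, if_pos h8, one_mul]
      · rw [if_neg (fun h => h8 h.2), if_neg h8, mul_zero]
    · rw [if_neg (fun h => h7 h.1), if_neg h7, zero_mul]
  have e2 : expected f M n z x = ∑ m ∈ Icc 1 x, w m * Pool.Agent.H373R2.T7.lamzI z ((n : ℤ) + (-f).eval (m : ℤ)) := by
    have hV : ∏ p ∈ (Icc 1 z).filter Nat.Prime, (1 - 1 / (p : ℝ)) = Pool.Agent.H373R2.T7.Vz z := rfl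
    unfold expected
    rw [hV, div_eq_mul_inv, mul_comm, ← nsmul_eq_mul', ← sum_const, sum_filter]
    refine sum_congr rfl fun m hm => ?_
    have h5 := a3' m hm
    rw [hneg, ← sub_eq_add_neg, hw]
    simp only
    unfold Pool.Agent.H373R2.T7.lamzI Pool.Agent.H373R2.T7.lamz
    rw [if_pos h5]
    have h2 : (∀ p ∈ Pool.Agent.H373R2.T7.pz z, ¬ p ∣ ((n : ℤ) - f.eval (m : ℤ)).toNat) ↔
        (∀ p : ℕ, p.Prime → p ≤ z → ¬ (p : ℤ) ∣ (n : ℤ) - f.eval (m : ℤ)) := by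
      constructor
      · intro h3 p hp hpz h4
        apply h3 p (Pool.Agent.H373R2.T7.mem_pz.2 ⟨hpz, hp⟩)
        apply Int.natCast_dvd_natCast.1
        rwa [Int.toNat_of_nonneg (by omega)]
      · intro h3 p hp h4
        have h6 := Pool.Agent.H373R2.T7.mem_pz.1 hp
        apply h3 p h6.2 h6.1
        have h7 := Int.natCast_dvd_natCast.2 h4
        rwa [Int.toNat_of_nonneg (by omega)] at h7
    by_cases h7 : m ∈ M
    · by_cases h8 : ∀ p : ℕ, p.Prime → p ≤ z → ¬ (p : ℤ) ∣ (n : ℤ) - f.eval (m : ℤ)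
      · rw [if_pos ⟨h7, h8⟩, if_pos h7, if_pos (h2.2 h8), one_mul]
      · rw [if_neg (fun h => h8 h.2), if_neg (fun h => h8 (h2.1 h)), mul_zero]
    · rw [if_neg (fun h => h7 h.1), if_neg h7, zero_mul]
  rw [e1, e2]
  exact a4

end Pool.Agent.Results.MP_d48457_nt.ArbitrarySetsOfArguments
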