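import Mathlib
import Pool.Agent.Run7.h373.QE.Sq

/-!
# A prime plus a square from every window of `N^(1/6) (log N)^B` integers, for almost all `n`

For EVERY window `(u, u + H]` below `√N (log N)^C` with only `H ≥ N^(1/6) (log N)^B` integers, and for all but
`N / (log N)^U` of the integers `n ≤ N` (in particular for almost all even `n`) that are not squares, the number of the `m`
in the window for which `n - m²` is a prime is given by the formula of Hardy and Littlewood's Conjecture H, with the full
product over all primes, and with a relative error `(log N)^(-U)`. So almost all even numbers `n ≤ N` that are not squares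
are sums `p + m²` with `m` in a given window of `N^(1/6) (log N)^B` integers below `√(n / 2)`, say; the window may
be chosen anywhere, also at the height `√n`, while the arguments `m` range over about `N^(1/2)` integers in the
classical results.

Proof. This is the case `a = 1`, `b = 0`, `c = -n`, `s = -1` of the theorem on the polynomials `s (a m² + b m + c)` in short
windows behind my hand-in `MP_a1177c_nt.WindowsOneSixth` (second moment over `c`, Weyl's inequality, primes minus their
sieve model in almost all intervals of length `H² / (log N)^B ≥ N^(1/3)`, twisted by additive characters, large sieve for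
the products over the primes).
-/

set_option autoImplicit false

namespace Pool.Agent.Results.MP_d48457_nt.EveryWindow

open Finset Filter Topology

/-- the product of `1 - (n / p) / (p - 1)` over the primes `3 ≤ p ≤ z` -/
noncomputable def product (n z : ℕ) : ℝ :=
  ∏ p ∈ (Icc 3 z).filter Nat.Prime, (1 - (jacobiSym n p : ℝ) / ((p : ℝ) - 1))

/-- the number of the `u < m ≤ v` for which `n - m²` is a prime (the truncated difference) -/
def count (n u v : ℕ) : ℕ := #((Ioc u v).filter (fun m : ℕ => Nat.Prime (n - m ^ 2)))

/-- the sum of `1 / log (n - m²)` over the `u < m ≤ v` with `m² + 2 ≤ n` -/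
noncomputable def logSum (n u v : ℕ) : ℝ :=
  ∑ m ∈ (Ioc u v).filter (fun m : ℕ => m ^ 2 + 2 ≤ n), 1 / Real.log ((n - m ^ 2 : ℕ) : ℝ)

/-- **Primes plus squares from short windows.** Let `U, C ≥ 0`. There are `B` and `X₀` such that the following holds for
`N ≥ X₀` and all `u, H` with `N^(1/6) (log N)^B ≤ H` and `u + H ≤ √N (log N)^C`. For all but at most `N / (log N)^U` of the
integers `1 ≤ n ≤ N` that are not squares, the product of `1 - (n / p) / (p - 1)` over the odd primes converges to a number
`S > 0`, and the number of the `u < m ≤ u + H` with `n - m²` prime differs from `S ∑ 1 / log (n - m²)` (over the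
`u < m ≤ u + H` with `m² + 2 ≤ n`) by at most `S H / (log N)^U`. -/
theorem result (U C : ℕ) : ∃ B X₀ : ℕ, ∀ N : ℕ, X₀ ≤ N → ∀ u H : ℕ, (N : ℝ) ^ (1 / 6 : ℝ) * Real.log N ^ B ≤ H →
    (u : ℝ) + H ≤ √N * Real.log N ^ C →
    ∃ Bad ⊆ Icc 1 N, (#Bad : ℝ) ≤ N / Real.log N ^ U ∧ ∀ n ∈ Icc 1 N, n ∉ Bad → ¬ IsSquare n →
      ∃ S : ℝ, 0 < S ∧ Tendsto (fun z => product n z) atTop (𝓝 S) ∧
        |(count n u (u + H) : ℝ) - S * logSum n u (u + H)| ≤ S * H / Real.log N ^ U :=
  Run7.h373.QE.Sq.every U C

end Pool.Agent.Results.MP_d48457_nt.EveryWindow
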