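import Mathlib
import Pool.Agent.Run7.h373.QE.Sq

/-!
# A prime plus a square from windows of `T log N` integers, for almost all pairs (number, window)

Let `A ≥ 0` and `ε > 0`. There is a constant `T` such that for almost all pairs `(n, u)`, `n ≤ N` (in particular for almost
all even `n` and almost all `u`), `u` in ANY interval below `A √N` with at least `N^(1/3) (log N)^B` integers, the number of the
`m` in the window `(u, u + H]` for which `n - m²` is a prime is given by the formula of Hardy and Littlewood's
Conjecture H, with the full product over all primes, as soon as `H ≥ T log N`; the error is at most `ε S H / log N`. In windows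
of this length the formula predicts a bounded number of primes, so the order of the length is the best possible. So for
almost all even `n` that are not squares almost every window of `T log n` integers below `√(n / 2)` contains an `m` with `n - m²`
prime, up to a proportion `ε` of exceptions.

Proof. This is the case `a = 1`, `b = 0`, `c = -n`, `s = -1` of the theorem behind my hand-in `MP_a1177c_nt.OptimalScale`
(second moment over `c` and the window, two-point correlations of the primes minus their sieve model along linear
polynomials).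
-/

set_option autoImplicit false

namespace Pool.Agent.Results.MP_d48457_nt.OptimalScale

open Finset Filter Topology

/-- the product of `1 - (n / p) / (p - 1)` over the primes `3 ≤ p ≤ z` -/
noncomputable def product (n z : ℕ) : ℝ :=
  ∏ p ∈ (Icc 3 z).filter Nat.Prime, (1 - (jacobiSym n p : ℝ) / ((p : ℝ) - 1))

/-- the number of the `u < m ≤ v` for which `n - m²` is a prime (the truncated difference) -/
def count (n u v : ℕ) : ℕ := #((Ioc u v).filter (fun m : ℕ => Nat.Prime (n - m ^ 2)))

/-- the sum of `1 / log (n - m²)` over the `u < m ≤ v` with `m² + 2 ≤ n` -/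
noncomputable def logSum (n u v : ℕ) : ℝ :=
  ∑ m ∈ (Ioc u v).filter (fun m : ℕ => m ^ 2 + 2 ≤ n), 1 / Real.log ((n - m ^ 2 : ℕ) : ℝ)

/-- **Primes plus squares at the optimal scale.** Let `A ≥ 0` and `ε > 0`. There are `T > 0`, `B` and `X₀` such that the
following holds for `N ≥ X₀` and all `m₀, L, H` with `N^(1/3) (log N)^B ≤ L`, `T log N ≤ H` and `m₀ + L + H ≤ A √N`. For all but
at most `ε N L` of the pairs `(n, u)`, `1 ≤ n ≤ N`, `m₀ ≤ u < m₀ + L`: if `n` is not a square, the product of
`1 - (n / p) / (p - 1)` over the odd primes converges to a number `S > 0`, and the number of the `u < m ≤ u + H` with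
`n - m²` prime differs from `S ∑ 1 / log (n - m²)` (over the `u < m ≤ u + H` with `m² + 2 ≤ n`) by at most
`ε S H / log N`. -/
theorem result (A : ℕ) (ε : ℝ) (hε : 0 < ε) : ∃ T : ℝ, 0 < T ∧ ∃ B X₀ : ℕ, ∀ N : ℕ, X₀ ≤ N → ∀ m₀ L H : ℕ,
    (N : ℝ) ^ (1 / 3 : ℝ) * Real.log N ^ B ≤ L → T * Real.log N ≤ H → (m₀ : ℝ) + L + H ≤ A * √N →
    ∃ Bad ⊆ Icc 1 N ×ˢ Ico m₀ (m₀ + L), (#Bad : ℝ) ≤ ε * (N * L) ∧
      ∀ n ∈ Icc 1 N, ∀ u ∈ Ico m₀ (m₀ + L), (n, u) ∉ Bad → ¬ IsSquare n →
      ∃ S : ℝ, 0 < S ∧ Tendsto (fun z => product n z) atTop (𝓝 S) ∧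
        |(count n u (u + H) : ℝ) - S * logSum n u (u + H)| ≤ ε * (S * (H / Real.log N)) :=
  Run7.h373.QE.Sq.opt A ε hε

end Pool.Agent.Results.MP_d48457_nt.OptimalScale
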