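import Pool.Agent.Run7.h524.MG.PolP

/-!
# The number of primes among few random values of a polynomial with a varying constant term has a Poisson law

Project MK of this run (primes in intervals of length `N ^ (1/3) log ^ C N` with additive characters), its consequence
`Run7.h18.MK.poly_fin` (the number of primes `n + f(k)`, `k ≤ x`, for almost all `n`), the binomial probabilities of
`Run7.h794.MK.Poi`. New: the singular series of `n + f` is bounded for all but `η N` of the `n` (second moment), and a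
Poisson law with varying parameter for almost all choices of the arguments (bounded differences).
-/

set_option autoImplicit false

open Polynomial Finset

namespace Pool.Agent.Results.MP_d48457_nt.PoissonRandomArguments

/-- The number of the residues `r` modulo `p` for which `p` divides `n + f(r)`. -/
noncomputable def rootCount (f : ℤ[X]) (n : ℤ) (p : ℕ) : ℕ :=
  ((range p).filter (fun r : ℕ => (p : ℤ) ∣ n + f.eval (r : ℤ))).card

/-- The singular series: the product of `(1 - rootCount / p) / (1 - 1 / p)` over the primes `p ≤ z`. -/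
noncomputable def density (f : ℤ[X]) (n : ℤ) (z : ℕ) : ℝ :=
  ∏ p ∈ (Icc 1 z).filter Nat.Prime, (1 - (rootCount f n p : ℝ) / p) / (1 - 1 / (p : ℝ))

/-- The number of the `l` for which `n + f(k_l + 1)` is a prime; the `k_l + 1` are elements of `{1, ..., x}`. -/
noncomputable def hits (f : ℤ[X]) {m x : ℕ} (k : Fin m → Fin x) (n : ℕ) : ℕ :=
  (univ.filter fun l : Fin m => ((n : ℤ) + f.eval (((k l : ℕ) : ℤ) + 1)).toNat.Prime).card

/-- The probability of `j` under the Poisson law with the parameter `lam`. -/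
noncomputable def poisson (lam : ℝ) (j : ℕ) : ℝ := Real.exp (-lam) * lam ^ j / j.factorial

open Classical in
/-- Let `f` be an integer polynomial of degree at least `2` (for example `f(k) = - k ^ 2`; then the primes are the summands `p` in `n = p + k ^ 2`), `B` an integer, `Λ > 0` and
`ε > 0`. There are `C`, `B₀`, `M₀` and `δ > 0` such that for every `E` and all large `N`, all `z` between `log ^ B₀ N` and
`log ^ E N`, all `x` with `N ^ (1/3) log ^ C N ≤ x ^ deg f ≤ N / log ^ C N`, all sets `J` of at least `N / B` integers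
`n ∈ [1, N]`, and all integers `m` with `M₀ ≤ m ≤ Λ log N`: for all but at most `N ^ (-δ) x ^ m` of the `m`-tuples
`k_1, ..., k_m` of integers in `[1, x]`, the number of the `n ∈ J` for which exactly `j` of the `m` integers
`n + f(k_1), ..., n + f(k_m)` are primes is the sum over `n ∈ J` of the probabilities of `j` under the Poisson law with the
parameter `m density f n z / log n`, up to `ε |J|`, for all `j ≥ 0` at once. -/
theorem result (f : ℤ[X]) (hf : 2 ≤ f.natDegree) (B : ℕ) (hB : 1 ≤ B) (Λ : ℝ) (hΛ : 0 < Λ) (ε : ℝ) (hε : 0 < ε) :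
    ∃ (C B₀ M₀ : ℕ) (δ : ℝ), 0 < δ ∧ ∀ E : ℕ, ∃ N₀ : ℕ, ∀ N : ℕ, N₀ ≤ N → ∀ z : ℕ,
    Real.log N ^ B₀ ≤ z → (z : ℝ) ≤ Real.log N ^ E → ∀ x : ℕ,
    (N : ℝ) ^ (1 / 3 : ℝ) * Real.log N ^ C ≤ (x : ℝ) ^ f.natDegree → (x : ℝ) ^ f.natDegree * Real.log N ^ C ≤ N →
    ∀ J : Finset ℕ, J ⊆ Icc 1 N → N ≤ B * J.card →
    ∀ m : ℕ, M₀ ≤ m → (m : ℝ) ≤ Λ * Real.log N →
    ((univ.filter fun k : Fin m → Fin x => ¬ ∀ j : ℕ,
      |((J.filter fun n : ℕ => hits f k n = j).card : ℝ) - ∑ n ∈ J, poisson (m * (density f n z / Real.log n)) j| ≤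
        ε * J.card).card : ℝ) ≤ (N : ℝ) ^ (-δ) * (x : ℝ) ^ m := by
  obtain ⟨C, B₀, K, δ, hδ, h⟩ := Pool.Agent.Run7.h524.MG.pois_poly f (by omega) B hB Λ hΛ ε hε
  refine ⟨C, B₀, K, δ, hδ, fun E => ?_⟩
  obtain ⟨N₀, h⟩ := h E
  refine ⟨N₀, fun N hN z hz1 hz2 x hx1 hx2 J hJ hJB m hm1 hm2 => ?_⟩
  have h2 := h N hN z hz1 hz2 x hx1 hx2 J hJ hJB m hm1 hm2
  refine le_trans (Nat.cast_le.2 (card_le_card fun ω hω => ?_)) h2
  rw [mem_filter] at hω ⊢
  refine ⟨hω.1, fun h3 => hω.2 fun u => ?_⟩
  have h4 := h3 u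
  unfold Pool.Agent.Run7.h524.MG.pw Pool.Agent.Run7.h524.MG.dens Pool.Agent.Run7.h524.MG.nu at h4
  unfold hits density rootCount poisson
  convert h4

end Pool.Agent.Results.MP_d48457_nt.PoissonRandomArguments
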